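import Mathlib
import Pool.Agent.H924P.Final2

/-!
The mean width of square-lattice self-avoiding polygons is at most `K n^(1 - c / log log n)`.
-/

namespace Pool.Agent.Results.MP_c23e5f_co.MeanWidthAlmostPower

/-- a closed nearest-neighbour loop on `ℤ²` with `m` steps, rooted at the origin and oriented,
that visits no vertex twice -/
def IsLoop (m : ℕ) (f : ZMod m → ℤ × ℤ) : Prop :=
  f 0 = 0 ∧ Function.Injective f ∧
    ∀ i : ZMod m, |(f (i + 1)).1 - (f i).1| + |(f (i + 1)).2 - (f i).2| = 1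

/-- the width (horizontal extent) of a loop -/
noncomputable def width (m : ℕ) (f : ZMod m → ℤ × ℤ) : ℕ :=
  sSup {w : ℕ | ∃ i j, w = ((f i).1 - (f j).1).natAbs}

/-- the mean width `W_n` of the self-avoiding polygons of perimeter `2 n`: the average of the
width over the rooted oriented polygons. -/
noncomputable def W (n : ℕ) : ℝ :=
  (∑ᶠ f ∈ {f : ZMod (2 * n) → ℤ × ℤ | IsLoop (2 * n) f}, (width (2 * n) f : ℝ)) /
    ({f : ZMod (2 * n) → ℤ × ℤ | IsLoop (2 * n) f}.ncard : ℝ)

/-- There are constants `c, K > 0` with `W_n ≤ K n^(1 - c / log log n)` for all `n ≥ 16`. -/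
theorem result : ∃ c K : ℝ, 0 < c ∧ 0 < K ∧ ∀ n : ℕ, 16 ≤ n →
    W n ≤ K * (n : ℝ) ^ (1 - c / Real.log (Real.log n)) := by
  obtain ⟨c, K, hc, hK, h⟩ := Pool.Agent.H924P.G.main
  exact ⟨c, K, hc, hK, fun n hn => (h n hn).1⟩

end Pool.Agent.Results.MP_c23e5f_co.MeanWidthAlmostPower
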